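import Pool.Agent.TH54.BU.Main2
import Pool.Agent.TH54.BU.Inf
import Pool.Agent.H452.SHP.Main

/-!
# The star class and the sharp class: all numbers of variables, and generic identities (helper452)

For words in at most one variable the classes `V(w^*)` and `V(w^#)` coincide. In two or more
variables they differ: for every large prime `p` one infinite two-generator group `G`, a central
extension of a group of order `p` by a group of exponent `p`, lies in `V(w^*)` and not in `V(w^#)`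
for every word `w = (x₀ v x₀ v⁻¹) ^ p`, `v = x₁ ⋯ xₙ`, `n ≥ 1`.
-/

set_option autoImplicit false

namespace Pool.Agent.Results.MP_134aa9_al.GenericIdentity

universe u

/-- `G` lies in the class `V(w^*)`. -/
def Star {n : ℕ} (w : FreeGroup (Fin n)) (G : Type*) [Group G] : Prop :=
  ∀ S : Fin n → Set G, (∀ i, (S i).Infinite) →
    ∃ s : Fin n → G, (∀ i, s i ∈ S i) ∧ FreeGroup.lift s w = 1

/-- `G` lies in the class `V(w^#)`. -/
def Sharp {n : ℕ} (w : FreeGroup (Fin n)) (G : Type*) [Group G] : Prop :=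
  ∀ S : Fin n → Set G, (∀ i, (S i).Infinite) →
    ∃ s : Fin n → G, (∀ i, s i ∈ S i) ∧
      ∀ h : Fin n → ↥(Subgroup.closure (Set.range s)), FreeGroup.lift h w = 1

/-- The word `(x₀ v x₀ v⁻¹) ^ p` in `n + 1` variables, where `v = x₁ x₂ ⋯ xₙ`. -/
def word (n p : ℕ) : FreeGroup (Fin (n + 1)) :=
  (FreeGroup.of 0 * (List.ofFn fun i : Fin n => FreeGroup.of i.succ).prod * FreeGroup.of 0 *
    ((List.ofFn fun i : Fin n => FreeGroup.of i.succ).prod)⁻¹) ^ p

/-- (1) For a word `w` in at most one variable and every group `G`, `G ∈ V(w^*)` if and only if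
`G ∈ V(w^#)`. (2) For every `n ≥ 2` there are a word `w` in `n` variables and an infinite group in
`V(w^*)` but not in `V(w^#)`. (3) For every large prime `p` there is an infinite two-generator group
`G` with a central subgroup `Z` of order `p` such that all `p`-th powers lie in `Z`; for every `x`
outside `Z`, all but finitely many `y` satisfy `(x y x y⁻¹) ^ p = 1`; infinitely many `s` in `G`
have `s ^ (2 p) ≠ 1`, so that `(x₀ x₁ x₀ x₁⁻¹) ^ p = 1` is not a law of the cyclic group `⟨s⟩`; and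
for every `n ≥ 1`, `G` lies in `V(w^*)` and not in `V(w^#)` for `w = word n p`. -/
theorem result :
    (∀ n : ℕ, n ≤ 1 → ∀ (w : FreeGroup (Fin n)) (G : Type u) [Group G], Star w G ↔ Sharp w G) ∧
    (∀ n : ℕ, 2 ≤ n → ∃ (w : FreeGroup (Fin n)) (G : Type) (_ : Group G), Infinite G ∧
      Star w G ∧ ¬ Sharp w G) ∧
    ∃ p0 : ℕ, ∀ p : ℕ, p.Prime → p0 ≤ p →
      ∃ (G : Type) (_ : Group G) (Z : Subgroup G) (a b : G), Infinite G ∧
        Subgroup.closure {a, b} = ⊤ ∧ Z ≤ Subgroup.center G ∧ Nat.card Z = p ∧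
        (∀ g : G, g ^ p ∈ Z) ∧
        (∀ x : G, x ∉ Z → {y : G | (x * y * x * y⁻¹) ^ p ≠ 1}.Finite) ∧
        {s : G | s ^ (2 * p) ≠ 1}.Infinite ∧
        ∀ n : ℕ, 1 ≤ n → Star (word n p) G ∧ ¬ Sharp (word n p) G := by
  have key : ∃ p0 : ℕ, ∀ p : ℕ, p.Prime → p0 ≤ p →
      ∃ (G : Type) (_ : Group G) (Z : Subgroup G) (a b : G), Infinite G ∧
        Subgroup.closure {a, b} = ⊤ ∧ Z ≤ Subgroup.center G ∧ Nat.card Z = p ∧
        (∀ g : G, g ^ p ∈ Z) ∧
        (∀ x : G, x ∉ Z → {y : G | (x * y * x * y⁻¹) ^ p ≠ 1}.Finite) ∧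
        {s : G | s ^ (2 * p) ≠ 1}.Infinite ∧
        ∀ n : ℕ, 1 ≤ n → Star (word n p) G ∧ ¬ Sharp (word n p) G := by
    obtain ⟨p1, h1⟩ := Pool.Agent.TH54.BU.burnside
    obtain ⟨p2, h2⟩ := Pool.Agent.TH54.BU.burnside2
    refine ⟨max (max p1 p2) 3, fun p hp hle => ?_⟩
    have e1 : p1 ≤ p := (le_max_left _ _).trans ((le_max_left _ _).trans hle)
    have e2 : p2 ≤ p := (le_max_right _ _).trans ((le_max_left _ _).trans hle)
    have e3 : 3 ≤ p := (le_max_right _ _).trans hle
    obtain ⟨G, hG, Z, a, b, g1, g2, g3, g4, g5, g6, g7⟩ :=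
      Pool.Agent.H452.SHP.main hp e3 (h2 p hp e2) ((h1 p hp e1).infinite hp)
    have hZ : (Z : Set G).Finite := by
      have : Finite Z := Nat.finite_of_card_ne_zero (by rw [g4]; exact hp.ne_zero)
      exact Set.toFinite _
    have g7' : {s : G | s ^ (2 * p) ≠ 1}.Infinite := by
      have h : {s : G | s ^ (2 * p) ≠ 1} = {s : G | (s * s) ^ p ≠ 1} := by
        ext s
        simp only [Set.mem_setOf_eq]
        rw [← pow_two, ← pow_mul]
      rw [h]
      exact g7
    exact ⟨G, hG, Z, a, b, g1, g2, g3, g4, g5, g6, g7', fun n hn =>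
      Pool.Agent.H452.SHP.star_sharp Z hZ g6 g7 n hn⟩
  refine ⟨?_, ?_, key⟩
  · intro n hn w G _
    constructor
    · intro h S hS
      obtain ⟨s, hs, h1⟩ := h S hS
      exact ⟨s, hs, Pool.Agent.H452.SHP.law_one hn w s h1⟩
    · intro h S hS
      obtain ⟨s, hs, h1⟩ := h S hS
      refine ⟨s, hs, ?_⟩
      set K := Subgroup.closure (Set.range s) with hK
      have h := h1 (fun i => ⟨s i, Subgroup.subset_closure ⟨i, rfl⟩⟩)
      have h2 : K.subtype (FreeGroup.lift
          (fun i => (⟨s i, Subgroup.subset_closure ⟨i, rfl⟩⟩ : K)) w) = FreeGroup.lift s w := by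
        have : (K.subtype.comp (FreeGroup.lift
            (fun i => (⟨s i, Subgroup.subset_closure ⟨i, rfl⟩⟩ : K)))) = FreeGroup.lift s := by
          apply FreeGroup.ext_hom
          intro i; simp
        rw [← this]; rfl
      rw [← h2, h, map_one]
  · intro n hn
    obtain ⟨m, rfl⟩ : ∃ m, n = m + 1 := ⟨n - 1, by omega⟩
    obtain ⟨p0, h⟩ := key
    obtain ⟨p, hle, hp⟩ := Nat.exists_infinite_primes p0
    obtain ⟨G, hG, Z, a, b, g1, g2, g3, g4, g5, g6, g7, g8⟩ := h p hp hle
    exact ⟨word m p, G, hG, g1, g8 m (by omega)⟩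

end Pool.Agent.Results.MP_134aa9_al.GenericIdentity
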